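import Pool.Agent.Helper16.HW.A1

/-! Block A1b of MP_074879_pr: second moment under a tilt. -/

open Finset

namespace HW

section A1
variable (w : ℕ → ℝ) (K : ℕ)

/-- partial sums of the second moment under a tilt -/
theorem S2_part_le (hw : ∀ k, 0 ≤ w k) (hs : ∀ k, K ≤ k → w k = 0) (hpos : 0 ≤ epsL w K)
    (hR : Reg w) (s : ℝ) (h0 : 0 < s) (X : ℕ) (hX1 : 1 ≤ X) (hX : 1 ≤ s * X) (R : ℕ) :
    ∑ k ∈ Ico 2 (2 ^ R * X + 2), ((k : ℝ) - 1) ^ 2 * w k * Real.exp (-s * ((k : ℝ) - 1)) ≤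
      (1 + 11 / 5 * (1 - (1 / 2) ^ R)) * ((X + 1) * Dp w (X + 1) / 500) := by
  have hD : 0 ≤ Dp w (X + 1) := hpos.trans (eps_le_Dp w K hw hs _ (by omega))
  have hVp : ∀ y : ℕ, X ≤ y → Vp w (y + 1) ≤ (y + 1) * Dp w (X + 1) / 500 := by
    intro y hy
    have h1 := hR (y + 1) (by omega)
    have h2 := Dp_anti w hw (X + 1) (y + 1) (by omega) (by omega)
    have h3 : (0 : ℝ) ≤ 1 / 500 * ((y + 1 : ℕ) : ℝ) := by positivity
    have h4 := mul_le_mul_of_nonneg_left h2 h3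
    push_cast at h1 h4 ⊢
    linarith
  induction R with
  | zero =>
    have h1 : ∑ k ∈ Ico (2 : ℕ) (2 ^ 0 * X + 2 : ℕ), ((k : ℝ) - 1) ^ 2 * w k *
        Real.exp (-s * ((k : ℝ) - 1)) ≤ Vp w (X + 1) := by
      unfold Vp
      have : 2 ^ 0 * X + 2 = X + 1 + 1 := by ring
      rw [this]
      refine sum_le_sum fun k hk => ?_
      rw [mem_Ico] at hk
      have hk1 : (1 : ℝ) ≤ k := by exact_mod_cast (by omega : 1 ≤ k)
      have he : Real.exp (-s * ((k : ℝ) - 1)) ≤ 1 := by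
        rw [Real.exp_le_one_iff]
        nlinarith
      have hn : 0 ≤ ((k : ℝ) - 1) ^ 2 * w k := mul_nonneg (sq_nonneg _) (hw k)
      nlinarith
    have h2 := hVp X le_rfl
    simp only [pow_zero, sub_self, mul_zero, add_zero, one_mul] at h1 ⊢
    linarith
  | succ R ih =>
    have hsplit : ∑ k ∈ Ico 2 (2 ^ (R + 1) * X + 2), ((k : ℝ) - 1) ^ 2 * w k *
        Real.exp (-s * ((k : ℝ) - 1)) =
        ∑ k ∈ Ico 2 (2 ^ R * X + 2), ((k : ℝ) - 1) ^ 2 * w k * Real.exp (-s * ((k : ℝ) - 1)) +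
        ∑ k ∈ Ico (2 ^ R * X + 2) (2 ^ (R + 1) * X + 2), ((k : ℝ) - 1) ^ 2 * w k *
        Real.exp (-s * ((k : ℝ) - 1)) := by
      rw [sum_Ico_consecutive _ (by omega)]
      have : 2 ^ R * X ≤ 2 ^ (R + 1) * X := Nat.mul_le_mul_right _
        (Nat.pow_le_pow_right (by norm_num) (by omega))
      omega
    have hpw : (0 : ℝ) < 2 ^ R := by positivity
    have hpw1 : (1 : ℝ) ≤ 2 ^ R := one_le_pow₀ (by norm_num)
    have h1 : ∑ k ∈ Ico (2 ^ R * X + 2) (2 ^ (R + 1) * X + 2), ((k : ℝ) - 1) ^ 2 * w k *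
        Real.exp (-s * ((k : ℝ) - 1)) ≤ Real.exp (-(2 : ℝ) ^ R) * Vp w (2 ^ (R + 1) * X + 1) := by
      unfold Vp
      rw [mul_sum]
      refine (sum_le_sum (g := fun k : ℕ => Real.exp (-(2 : ℝ) ^ R) * (((k : ℝ) - 1) ^ 2 * w k))
        fun k hk => ?_).trans (sum_le_sum_of_subset_of_nonneg ?_ ?_)
      · rw [mem_Ico] at hk
        have hk1 : (2 : ℝ) ^ R * X ≤ (k : ℝ) - 1 := by
          have : ((2 ^ R * X + 2 : ℕ) : ℝ) ≤ k := by exact_mod_cast hk.1
          push_cast at this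
          linarith
        have he : Real.exp (-s * ((k : ℝ) - 1)) ≤ Real.exp (-(2 : ℝ) ^ R) := by
          rw [Real.exp_le_exp]
          nlinarith
        have hn : 0 ≤ ((k : ℝ) - 1) ^ 2 * w k := mul_nonneg (sq_nonneg _) (hw k)
        calc ((k : ℝ) - 1) ^ 2 * w k * Real.exp (-s * ((k : ℝ) - 1))
            ≤ ((k : ℝ) - 1) ^ 2 * w k * Real.exp (-(2 : ℝ) ^ R) :=
              mul_le_mul_of_nonneg_left he hn
          _ = _ := by ring
      · apply Ico_subset_Ico (by omega) (by omega)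
      · intro k _ _
        exact mul_nonneg (Real.exp_nonneg _) (mul_nonneg (sq_nonneg _) (hw k))
    have h2 := hVp (2 ^ (R + 1) * X) (Nat.le_mul_of_pos_left _ (by positivity))
    have h3 : Real.exp (-(2 : ℝ) ^ R) * (2 * 2 ^ R) * 2 ^ R ≤ 11 / 10 := by
      -- `e^t ≥ e t` with `t = y / 2`
      have ha : (2 : ℝ) ^ R / 2 * Real.exp 1 ≤ Real.exp ((2 : ℝ) ^ R / 2) := by
        have := Real.add_one_le_exp ((2 : ℝ) ^ R / 2 - 1)
        have h' : Real.exp ((2 : ℝ) ^ R / 2) = Real.exp ((2 : ℝ) ^ R / 2 - 1) * Real.exp 1 := by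
          rw [← Real.exp_add]; ring_nf
        rw [h']
        have := mul_le_mul_of_nonneg_right this (Real.exp_nonneg 1)
        linarith
      have hb : ((2 : ℝ) ^ R / 2 * Real.exp 1) ^ 2 ≤ Real.exp ((2 : ℝ) ^ R) := by
        have := pow_le_pow_left₀ (by positivity) ha 2
        rwa [← Real.exp_nat_mul, show ((2 : ℕ) : ℝ) * ((2 : ℝ) ^ R / 2) = 2 ^ R by
          push_cast; ring] at this
      have hc : (2.7 : ℝ) ≤ Real.exp 1 := by
        have := Real.exp_one_gt_d9; linarith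
      have hd : (2.7 : ℝ) ^ 2 ≤ Real.exp 1 ^ 2 := pow_le_pow_left₀ (by norm_num) hc 2
      have he : (2 : ℝ) ^ R * 2 ^ R * 2.7 ^ 2 / 4 ≤ Real.exp ((2 : ℝ) ^ R) := by
        have : (2 : ℝ) ^ R * 2 ^ R * 2.7 ^ 2 / 4 ≤ ((2 : ℝ) ^ R / 2 * Real.exp 1) ^ 2 := by
          have h5 : ((2 : ℝ) ^ R / 2 * Real.exp 1) ^ 2 =
            (2 : ℝ) ^ R * 2 ^ R / 4 * Real.exp 1 ^ 2 := by ring
          rw [h5]
          have h6 := mul_le_mul_of_nonneg_left hd
            (by positivity : (0 : ℝ) ≤ (2 : ℝ) ^ R * 2 ^ R / 4)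
          linarith
        linarith
      rw [Real.exp_neg]
      have hpos' := Real.exp_pos ((2 : ℝ) ^ R)
      rw [mul_assoc, inv_mul_le_iff₀ hpos']
      nlinarith
    have h4 : Real.exp (-(2 : ℝ) ^ R) * Vp w (2 ^ (R + 1) * X + 1) ≤
        11 / 10 * (1 / 2) ^ R * ((X + 1) * Dp w (X + 1) / 500) := by
      have h5 := mul_le_mul_of_nonneg_left h2 (Real.exp_nonneg (-(2 : ℝ) ^ R))
      refine h5.trans ?_
      push_cast
      have h6 : ((2 : ℝ) ^ (R + 1) * X + 1) ≤ 2 * 2 ^ R * (X + 1) := by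
        rw [pow_succ]
        nlinarith
      have h7 : ((2 : ℝ) ^ (R + 1) * X + 1) * Dp w (X + 1) / 500 ≤
          2 * 2 ^ R * ((X + 1) * Dp w (X + 1) / 500) := by
        have := mul_le_mul_of_nonneg_right h6 hD
        linarith
      have h8 := mul_le_mul_of_nonneg_left h7 (Real.exp_nonneg (-(2 : ℝ) ^ R))
      refine h8.trans ?_
      have h9 : (0 : ℝ) ≤ (X + 1) * Dp w (X + 1) / 500 := by positivity
      have h10 : Real.exp (-(2 : ℝ) ^ R) * (2 * 2 ^ R) ≤ 11 / 10 * (1 / 2) ^ R := by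
        rw [one_div, inv_pow, ← div_eq_mul_inv, le_div_iff₀ hpw]
        exact h3
      calc Real.exp (-(2 : ℝ) ^ R) * (2 * 2 ^ R * ((X + 1) * Dp w (X + 1) / 500))
          = Real.exp (-(2 : ℝ) ^ R) * (2 * 2 ^ R) * ((X + 1) * Dp w (X + 1) / 500) := by ring
        _ ≤ _ := mul_le_mul_of_nonneg_right h10 h9
    rw [hsplit]
    have h11 : (1 + 11 / 5 * (1 - (1 / 2 : ℝ) ^ (R + 1))) * ((X + 1) * Dp w (X + 1) / 500) =
        (1 + 11 / 5 * (1 - (1 / 2 : ℝ) ^ R)) * ((X + 1) * Dp w (X + 1) / 500) +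
        11 / 10 * (1 / 2) ^ R * ((X + 1) * Dp w (X + 1) / 500) := by
      rw [pow_succ]; ring
    rw [h11]
    linarith

/-- A1 main estimate: second moment under a tilt -/
theorem S2_le (hw : ∀ k, 0 ≤ w k) (hs : ∀ k, K ≤ k → w k = 0) (hpos : 0 ≤ epsL w K)
    (hR : Reg w) (s : ℝ) (h0 : 0 < s) (h1 : s ≤ 1 / 1000) :
    S2 w K s ≤ 7 / 500 * (Fs w K s / s) := by
  set X := ⌈1 / s⌉₊ with hXdef
  have hXge : 1 / s ≤ X := Nat.le_ceil _
  have hXle : (X : ℝ) < 1 / s + 1 := Nat.ceil_lt_add_one (by positivity)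
  have hsX : 1 ≤ s * X := by
    rw [div_le_iff₀ h0] at hXge
    linarith
  have hX1 : 1 ≤ X := by
    rcases Nat.eq_zero_or_pos X with h | h
    · rw [h] at hsX; norm_num at hsX
    · exact h
  have hF := Dp_le_Fs w K hw hs hpos s h0 X hsX
  have hD : 0 ≤ Dp w (X + 1) := hpos.trans (eps_le_Dp w K hw hs _ (by omega))
  have hpart := S2_part_le w K hw hs hpos hR s h0 X hX1 hsX K
  have hS : S2 w K s ≤ ∑ k ∈ Ico 2 (2 ^ K * X + 2), ((k : ℝ) - 1) ^ 2 * w k *
      Real.exp (-s * ((k : ℝ) - 1)) := by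
    unfold S2
    apply sum_le_sum_of_subset_of_nonneg
    · apply Ico_subset_Ico le_rfl
      have h2 : K < 2 ^ K := Nat.lt_two_pow_self
      have h3 : 2 ^ K ≤ 2 ^ K * X := Nat.le_mul_of_pos_right _ hX1
      omega
    · intro k _ _
      exact mul_nonneg (mul_nonneg (sq_nonneg _) (hw k)) (Real.exp_nonneg _)
  have h2 : (1 + 11 / 5 * (1 - (1 / 2 : ℝ) ^ K)) * ((X + 1) * Dp w (X + 1) / 500) ≤
      16 / 5 * ((X + 1) * Dp w (X + 1) / 500) := by
    apply mul_le_mul_of_nonneg_right _ (by positivity)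
    have : (0 : ℝ) ≤ (1 / 2) ^ K := by positivity
    linarith
  have h3 : ((X : ℝ) + 1) * s ≤ 1002 / 1000 := by
    have h4 : (X : ℝ) * s < (1 / s + 1) * s := mul_lt_mul_of_pos_right hXle h0
    have h5 : (1 / s + 1) * s = 1 + s := by field_simp
    nlinarith
  have hFpos : 0 ≤ Fs w K s := by linarith
  have h4 : 16 / 5 * ((X + 1) * Dp w (X + 1) / 500) ≤ 7 / 500 * (Fs w K s / s) := by
    rw [← mul_div_assoc (7 / 500 : ℝ), le_div_iff₀ h0]
    have h5 : 16 / 5 * ((X + 1) * Dp w (X + 1) / 500) * s =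
        16 / 2500 * (((X : ℝ) + 1) * s) * Dp w (X + 1) := by ring
    rw [h5]
    have h6 : 16 / 2500 * (((X : ℝ) + 1) * s) * Dp w (X + 1) ≤
        16 / 2500 * (1002 / 1000) * (8 / 5 * Fs w K s) := by
      apply mul_le_mul _ hF hD (by norm_num)
      linarith
    linarith
  linarith

theorem Fs_double (hw : ∀ k, 0 ≤ w k) (hs : ∀ k, K ≤ k → w k = 0) (hpos : 0 ≤ epsL w K)
    (hK : 1 ≤ K) (hR : Reg w) (s : ℝ) (h0 : 0 < s) (h1 : s ≤ 1 / 2000) :
    Fs w K (2 * s) ≤ 1014 / 1000 * Fs w K s + 11 / 10 * w 0 * s := by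
  have h2 := Fs_add_le w K hw hK s s h0.le h0.le
  have h3 := S2_le w K hw hs hpos hR s h0 (by linarith)
  have h4 : s * S2 w K s ≤ 7 / 500 * Fs w K s := by
    have := mul_le_mul_of_nonneg_left h3 h0.le
    have h5 : s * (7 / 500 * (Fs w K s / s)) = 7 / 500 * Fs w K s := by
      field_simp
    linarith
  have h6 : Real.exp (s + s) - Real.exp s ≤ 11 / 10 * s := by
    have h7 := Real.add_one_le_exp (-s)
    have h8 : Real.exp (s + s) * Real.exp (-s) = Real.exp s := by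
      rw [← Real.exp_add]; ring_nf
    have h9 : Real.exp (s + s) ≤ 11 / 10 := by
      have h10 : Real.exp (s + s) ≤ 1 / (1 - (s + s)) := by
        have h11 := Real.add_one_le_exp (-(s + s))
        have h12 : (0 : ℝ) < 1 - (s + s) := by linarith
        rw [le_div_iff₀ h12]
        have h13 : Real.exp (s + s) * Real.exp (-(s + s)) = 1 := by
          rw [← Real.exp_add]; simp
        nlinarith [Real.exp_pos (s + s)]
      have h14 : 1 / (1 - (s + s)) ≤ 11 / 10 := by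
        rw [div_le_iff₀ (by linarith)]
        linarith
      linarith
    have h15 : Real.exp (s + s) * (1 - s) ≤ Real.exp s := by
      rw [← h8]
      exact mul_le_mul_of_nonneg_left (by linarith) (Real.exp_nonneg _)
    nlinarith
  have h16 : w 0 * (Real.exp (s + s) - Real.exp s) ≤ 11 / 10 * w 0 * s := by
    have := mul_le_mul_of_nonneg_left h6 (hw 0)
    linarith
  rw [two_mul]
  linarith

/-- growth of `ms` -/
theorem ms_growth (hw : ∀ k, 0 ≤ w k) (hs : ∀ k, K ≤ k → w k = 0) (hpos : 0 ≤ epsL w K)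
    (hK : 1 ≤ K) (hR : Reg w) (s : ℝ) (h0 : 0 < s) (h1 : s ≤ 1 / 1000)
    (h2 : 1000 * (w 0 * s) ≤ Fs w K s) :
    ms w K 0 + 4 / 5 * (s * Fs w K s) ≤ ms w K s := by
  have a1 := ms_ge w K hw (s / 2) s
  have a2 := ms_ge w K hw (s / 4) (s / 2)
  have a3 := ms_ge w K hw (s / 8) (s / 4)
  have a4 := ms_ge w K hw 0 (s / 8)
  have b1 := Fs_double w K hw hs hpos hK hR (s / 2) (by positivity) (by linarith)
  have b2 := Fs_double w K hw hs hpos hK hR (s / 4) (by positivity) (by linarith)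
  have b3 := Fs_double w K hw hs hpos hK hR (s / 8) (by positivity) (by linarith)
  rw [show 2 * (s / 2) = s by ring] at b1
  rw [show 2 * (s / 4) = s / 2 by ring] at b2
  rw [show 2 * (s / 8) = s / 4 by ring] at b3
  have c0 : 0 ≤ Fs w K 0 := by rw [Fs_zero]; exact hpos
  have c1 : 0 ≤ (s / 8 - 0) * Fs w K 0 := mul_nonneg (by linarith) c0
  have hw0 : 0 ≤ w 0 * s := mul_nonneg (hw 0) h0.le
  have key : 4 / 5 * Fs w K s ≤
      1 / 2 * Fs w K (s / 2) + 1 / 4 * Fs w K (s / 4) + 1 / 8 * Fs w K (s / 8) := by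
    linarith
  have key2 := mul_le_mul_of_nonneg_left key h0.le
  have e1 : (s - s / 2) * Fs w K (s / 2) = s * (1 / 2 * Fs w K (s / 2)) := by ring
  have e2 : (s / 2 - s / 4) * Fs w K (s / 4) = s * (1 / 4 * Fs w K (s / 4)) := by ring
  have e3 : (s / 4 - s / 8) * Fs w K (s / 8) = s * (1 / 8 * Fs w K (s / 8)) := by ring
  rw [e1] at a1
  rw [e2] at a2
  rw [e3] at a3
  have e4 : s * (1 / 2 * Fs w K (s / 2) + 1 / 4 * Fs w K (s / 4) + 1 / 8 * Fs w K (s / 8)) =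
    s * (1 / 2 * Fs w K (s / 2)) + s * (1 / 4 * Fs w K (s / 4)) +
    s * (1 / 8 * Fs w K (s / 8)) := by ring
  rw [e4] at key2
  linarith

end A1

end HW
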